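import Pool.Agent.H649.BipRot

namespace Pool.Agent.H649.InducedPath

open Finset

variable {V : Type*} {G : SimpleGraph V}

/-- the average degree bound, `L + 4` -/
theorem bip4 [Fintype V] {c : V → Bool} (hc : ∀ u v, G.Adj u v → c u ≠ c v) (hC : C4Free G)
    {L : ℕ} (hL : 3 ≤ L) {S : Finset V} (hS : S.Nonempty)
    (h1 : ∀ v ∈ S, L + 1 ≤ 2 * dS G S v)
    (h2 : ∀ v ∈ S, ∀ w ∈ S, G.Adj v w → L + 2 ≤ dS G S v + dS G S w)
    (h3 : L * S.card ≤ mS G S)
    (h4 : ∀ S' : Finset V, S'.Nonempty → S'.card < S.card → mS G S' < L * S'.card) :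
    ∃ (f : ℕ → V) (k : ℕ), L + 4 ≤ k ∧ IP G f k := by
  classical
  by_contra hcon
  push Not at hcon
  obtain ⟨f, k, hk, hf, hfS⟩ := bip3' hc hC (by omega) hS h1 h2
  have hkL : k = L + 3 := by
    by_contra h
    exact hcon f k (by omega) hf
  have hlow : ∀ g : ℕ → V, IP G g k → (∀ i < k, g i ∈ S) →
      2 * dS G S (g (k - 1)) + 1 ≤ k ∧ ∀ i, i + 4 ≤ k →
      (i + k) % 2 = 1 → ∃ w ∈ S, G.Adj w (g (k - 1)) ∧ G.Adj w (g i) ∧
        ∀ j < k - 1, j ≠ i → ¬ G.Adj w (g j) := by
    intro g hg hgS
    have hb : SBlk G S g k := by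
      by_contra hb
      obtain ⟨x, -, hx, hn⟩ := not_sblk hb
      exact hcon _ (k + 1) (by omega) (hg.snoc (by omega) hx hn)
    obtain ⟨c1, c2⟩ := countB hc hC hg (by omega) hb
    have := h1 _ (hgS (k - 1) (by omega))
    exact ⟨c1, c2 (by omega)⟩
  have hrot : ∀ g : ℕ → V, IP G g k → (∀ i < k, g i ∈ S) → ∀ j, 2 ≤ j → j < k →
      (j + k) % 2 = 1 → 2 * dS G S (g j) + 1 ≤ k := by
    intro g hg hgS j hj2 hjk hpar
    obtain ⟨b1, b2⟩ := hlow g hg hgS
    by_cases hj : j = k - 1
    · rw [hj]; exact b1
    · obtain ⟨w, hwS, hw1, hw2, hw3⟩ := b2 (j - 2) (by omega) (by omega)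
      have hr := rot hg (i := j - 2) (by omega) hw1 hw2 hw3
      have := (hlow _ hr (by
        intro a ha
        by_cases a1 : a ≤ j - 2
        · simp only [a1, if_true]; exact hgS a ha
        · simp only [a1, if_false]
          by_cases a2 : a = j - 2 + 1
          · rw [if_pos a2]; exact hwS
          · rw [if_neg a2]; exact hgS _ (by omega))).1
      have a1 : ¬ (k - 1 ≤ j - 2) := by omega
      have a2 : ¬ (k - 1 = j - 2 + 1) := by omega
      have a3 : k + (j - 2) + 1 - (k - 1) = j := by omega
      simp only [a1, a2, a3, if_false] at this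
      exact this
  have hrot' : ∀ g : ℕ → V, IP G g k → (∀ i < k, g i ∈ S) → ∀ j, 2 ≤ j → j < k →
      (j + k) % 2 = 1 → 2 * dS G S (g (k - 1 - j)) + 1 ≤ k := by
    intro g hg hgS j hj2 hjk hpar
    exact hrot _ hg.rev (fun i hi => hgS _ (by omega)) j hj2 hjk hpar
  rcases Nat.mod_two_eq_zero_or_one k with hpar | hpar
  · -- `k` even
    have a1 := hrot f hf hfS 3 (by omega) (by omega) (by omega)
    have a2 := hrot' f hf hfS (k - 3) (by omega) (by omega) (by omega)
    have e : k - 1 - (k - 3) = 2 := by omega
    rw [e] at a2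
    have a3 := h2 (f 2) (hfS 2 (by omega)) (f 3) (hfS 3 (by omega))
      ((hf.2 2 (by omega) 3 (by omega)).2 (Or.inl rfl))
    omega
  · -- `k` odd
    obtain ⟨w, hwS, hw1, hw2, hw3⟩ := (hlow f hf hfS).2 0 (by omega) (by omega)
    have q1 : IP G (fun i => f (i + 1)) (k - 1) := hf.shift 1 (k - 1) (by omega)
    have q2 := q1.snoc (by omega) (w := w)
      (by
        have e : k - 1 - 1 + 1 = k - 1 := by omega
        simpa only [e] using hw1)
      (by
        intro i hi
        exact hw3 (i + 1) (by omega) (by omega))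
    have ek : k - 1 + 1 = k := by omega
    rw [ek] at q2
    have q2S : ∀ i < k, (fun i => if i < k - 1 then f (i + 1) else w) i ∈ S := by
      intro i hi
      by_cases h' : i < k - 1
      · simp only [h', if_true]
        exact hfS _ (by omega)
      · simp only [h', if_false]
        exact hwS
    have hev : ∀ j < k, j % 2 = 0 → 2 * dS G S (f j) + 1 ≤ k := by
      intro j hj hj2
      rcases Nat.eq_zero_or_pos j with h0 | h0
      · have := hrot' f hf hfS (k - 1) (by omega) (by omega) (by omega)
        have e : k - 1 - (k - 1) = j := by omega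
        rw [e] at this
        exact this
      · exact hrot f hf hfS j (by omega) hj (by omega)
    have hev' : ∀ j < k, j % 2 = 0 →
        2 * dS G S ((fun i => if i < k - 1 then f (i + 1) else w) j) + 1 ≤ k := by
      intro j hj hj2
      rcases Nat.eq_zero_or_pos j with h0 | h0
      · have := hrot' _ q2 q2S (k - 1) (by omega) (by omega) (by omega)
        have e : k - 1 - (k - 1) = j := by omega
        rw [e] at this
        exact this
      · exact hrot _ q2 q2S j (by omega) hj (by omega)
    have hall : ∀ j < k, 2 * dS G S (f j) + 1 ≤ k := by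
      intro j hj
      rcases Nat.mod_two_eq_zero_or_one j with hp | hp
      · exact hev j hj hp
      · have := hev' (j - 1) (by omega) (by omega)
        have e1 : j - 1 < k - 1 := by omega
        have e2 : j - 1 + 1 = j := by omega
        simp only [e1, e2, if_true] at this
        exact this
    have hwlow : 2 * dS G S w + 1 ≤ k := by
      have := hev' (k - 1) (by omega) (by omega)
      have e1 : ¬ (k - 1 < k - 1) := by omega
      simp only [e1, if_false] at this
      exact this
    have hwne : ∀ j < k, w ≠ f j := by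
      intro j hj h
      rw [h, hf.2 j hj _ (by omega)] at hw1 hw2
      omega
    set T : Finset V := insert w ((range k).image f) with hTdef
    have hfT : ∀ j < k, f j ∈ T := fun j hj =>
      mem_insert_of_mem (mem_image_of_mem f (mem_range.2 hj))
    have hwT : w ∈ T := mem_insert_self _ _
    have hTS : T ⊆ S := by
      intro x hx
      rw [hTdef, mem_insert, mem_image] at hx
      rcases hx with hx | ⟨j, hj, hx⟩
      · rw [hx]; exact hwS
      · rw [← hx]; exact hfS j (mem_range.1 hj)
    have hTlow : ∀ x ∈ T, 2 * dS G S x ≤ L + 2 := by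
      intro x hx
      rw [hTdef, mem_insert, mem_image] at hx
      rcases hx with hx | ⟨j, hj, hx⟩
      · rw [hx]; omega
      · rw [← hx]
        have := hall j (mem_range.1 hj)
        omega
    have two : ∀ x a b : V, a ∈ T → b ∈ T → a ≠ b → G.Adj x a → G.Adj x b → 2 ≤ dS G T x := by
      intro x a b ha hb hab h5 h6
      unfold dS
      exact Finset.one_lt_card.2 ⟨a, mem_filter.2 ⟨ha, h5⟩, b, mem_filter.2 ⟨hb, h6⟩, hab⟩
    have hTdeg : ∀ x ∈ T, 2 ≤ dS G T x := by
      intro x hx
      rw [hTdef, mem_insert, mem_image] at hx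
      rcases hx with hx | ⟨j, hj, hx⟩
      · rw [hx]
        refine two w (f 0) (f (k - 1)) (hfT 0 (by omega)) (hfT _ (by omega)) ?_ hw2 hw1
        intro h
        have := hf.1 0 (by omega) (k - 1) (by omega) h
        omega
      · rw [← hx]
        rw [mem_range] at hj
        by_cases j0 : j = 0
        · refine two _ w (f 1) hwT (hfT 1 (by omega)) (hwne 1 (by omega)) ?_ ?_
          · rw [j0]; exact hw2.symm
          · rw [hf.2 j hj 1 (by omega)]; omega
        · by_cases jk : j = k - 1
          · refine two _ w (f (k - 2)) hwT (hfT _ (by omega)) (hwne _ (by omega)) ?_ ?_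
            · rw [jk]; exact hw1.symm
            · rw [hf.2 j hj _ (by omega)]; omega
          · refine two _ (f (j - 1)) (f (j + 1)) (hfT _ (by omega)) (hfT _ (by omega)) ?_ ?_ ?_
            · intro h
              have := hf.1 _ (by omega) _ (by omega) h
              omega
            · rw [hf.2 j hj _ (by omega)]; omega
            · rw [hf.2 j hj _ (by omega)]; omega
    have m1 := mS_split (G := G) hTS
    have m2 : 2 * T.card ≤ mS G T := by
      unfold mS
      have := Finset.card_nsmul_le_sum T (fun v => dS G T v) 2 hTdeg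
      rw [smul_eq_mul] at this
      omega
    have m3 : 2 * ∑ v ∈ T, dS G S v ≤ (L + 2) * T.card := by
      rw [mul_sum]
      have := Finset.sum_le_card_nsmul T (fun v => 2 * dS G S v) (L + 2) hTlow
      rw [smul_eq_mul] at this
      nlinarith
    have m4 := card_sdiff_add_card_eq_card hTS
    have hTpos : 0 < T.card := card_pos.2 ⟨w, hwT⟩
    rcases (S \ T).eq_empty_or_nonempty with h0 | h0
    · have hST : S = T := by
        apply subset_antisymm _ hTS
        rw [← sdiff_eq_empty_iff_subset]
        exact h0
      have m5 : 2 * mS G S ≤ (L + 2) * S.card := by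
        have : mS G S = ∑ v ∈ T, dS G S v := by
          unfold mS
          exact sum_congr hST (fun _ _ => rfl)
        rw [this]
        rw [hST]
        rw [hST] at m3
        exact m3
      have hSpos : 0 < S.card := card_pos.2 hS
      nlinarith
    · have m5 := h4 _ h0 (by omega)
      rw [← m4] at h3
      nlinarith

end Pool.Agent.H649.InducedPath
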