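import Pool.Agent.H649.BipPath

namespace Pool.Agent.H649.InducedPath

open Finset

variable {V : Type*} {G : SimpleGraph V}

lemma parity {c : V → Bool} (hc : ∀ u v, G.Adj u v → c u ≠ c v) {f : ℕ → V} {k : ℕ}
    (hf : IP G f k) : ∀ i < k, c (f i) = (c (f 0) ^^ decide (i % 2 = 1)) := by
  intro i
  induction i with
  | zero => intro _; simp
  | succ i ih =>
    intro hi
    have h1 := ih (by omega)
    have h2 := hc (f i) (f (i + 1)) ((hf.2 i (by omega) (i + 1) hi).2 (Or.inl rfl))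
    rcases Nat.mod_two_eq_zero_or_one i with h | h
    · have h' : (i + 1) % 2 = 1 := by omega
      rw [h'] 
      rw [h] at h1
      revert h1 h2
      cases c (f i) <;> cases c (f (i + 1)) <;> cases c (f 0) <;> simp
    · have h' : (i + 1) % 2 = 0 := by omega
      rw [h']
      rw [h] at h1
      revert h1 h2
      cases c (f i) <;> cases c (f (i + 1)) <;> cases c (f 0) <;> simp

lemma parity_common {c : V → Bool} (hc : ∀ u v, G.Adj u v → c u ≠ c v) {f : ℕ → V} {k : ℕ}
    (hf : IP G f k) {i j : ℕ} (hi : i < k) (hj : j < k) {w : V} (h1 : G.Adj w (f i))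
    (h2 : G.Adj w (f j)) : (i + j) % 2 = 0 := by
  have e1 := hc _ _ h1
  have e2 := hc _ _ h2
  rw [parity hc hf i hi] at e1
  rw [parity hc hf j hj] at e2
  rcases Nat.mod_two_eq_zero_or_one i with h | h <;> rcases Nat.mod_two_eq_zero_or_one j with h' | h'
  · omega
  · exfalso
    rw [h] at e1; rw [h'] at e2
    revert e1 e2
    cases c w <;> cases c (f 0) <;> simp
  · exfalso
    rw [h] at e1; rw [h'] at e2
    revert e1 e2
    cases c w <;> cases c (f 0) <;> simp
  · omega

lemma countB {c : V → Bool} (hc : ∀ u v, G.Adj u v → c u ≠ c v) (hC : C4Free G)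
    {S : Finset V} {f : ℕ → V} {k : ℕ} (hf : IP G f k) (hk : 3 ≤ k) (hb : SBlk G S f k) :
    2 * dS G S (f (k - 1)) + 1 ≤ k ∧ (k ≤ 2 * dS G S (f (k - 1)) + 2 → ∀ i, i + 4 ≤ k →
      (i + k) % 2 = 1 → ∃ w ∈ S, G.Adj w (f (k - 1)) ∧ G.Adj w (f i) ∧
        ∀ j < k - 1, j ≠ i → ¬ G.Adj w (f j)) := by
  classical
  set I := S.filter (fun u => G.Adj (f (k - 1)) u) with hIdef
  have hIc : I.card = dS G S (f (k - 1)) := by
    unfold dS
    congr!
  have hmem : ∀ w ∈ I, w ∈ S ∧ G.Adj (f (k - 1)) w := fun w hw => by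
    rw [hIdef, mem_filter] at hw; exact hw
  have hcF : ((range ((k - 2) / 2)).image (fun j => k - 4 - 2 * j)).card = (k - 2) / 2 := by
    rw [card_image_of_injOn, card_range]
    intro a ha b hb' hab
    simp only [coe_range, Set.mem_Iio] at ha hb'
    simp only at hab
    omega
  obtain ⟨c1, c2⟩ := countS hC hf hk I (fun w hw => (hmem w hw).2.symm)
    (fun w hw => hb w (hmem w hw).1 (hmem w hw).2.symm)
    (fun w hw w' hw' h => by
      have a1 := hc _ _ (hmem w hw).2
      have a2 := hc _ _ (hmem w' hw').2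
      have a3 := hc _ _ h
      revert a1 a2 a3
      cases c (f (k - 1)) <;> cases c w <;> cases c w' <;> simp)
    ((range ((k - 2) / 2)).image (fun j => k - 4 - 2 * j))
    (fun i hi => by
      rw [mem_image] at hi
      obtain ⟨j, hj, rfl⟩ := hi
      rw [mem_range] at hj
      omega)
    (fun i hi w h1 h2 => by
      rw [mem_image] at hi
      obtain ⟨j, hj, rfl⟩ := hi
      rw [mem_range] at hj
      have := parity_common hc hf (by omega) (by omega) h1 h2
      omega)
  rw [hcF, hIc] at c1 c2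
  refine ⟨by omega, ?_⟩
  intro hle i hi4 hpar
  obtain ⟨w, hw, h1, h2, h3⟩ := c2 (by omega) i hi4 (by
    rw [mem_image]
    rintro ⟨j, hj, hij⟩
    rw [mem_range] at hj
    omega)
  exact ⟨w, (hmem w hw).1, h1, h2, h3⟩

lemma exists_start {c : V → Bool} (hc : ∀ u v, G.Adj u v → c u ≠ c v) {S : Finset V}
    (hS : S.Nonempty) (hd : ∀ v ∈ S, 2 ≤ dS G S v) :
    ∃ f : ℕ → V, IP G f 3 ∧ ∀ i, f i ∈ S := by
  classical
  obtain ⟨u, hu⟩ := hS
  have h2 := hd u hu
  unfold dS at h2
  obtain ⟨a, ha, b, hb, hab⟩ := Finset.one_lt_card.1 (show 1 < _ by exact h2)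
  rw [mem_filter] at ha hb
  have e1 := ha.2
  have e2 := hb.2
  have n1 : a ≠ u := e1.ne'
  have n2 : b ≠ u := e2.ne'
  have e3 : ¬ G.Adj a b := by
    intro h
    have a1 := hc _ _ e1
    have a2 := hc _ _ e2
    have a3 := hc _ _ h
    revert a1 a2 a3
    cases c u <;> cases c a <;> cases c b <;> simp
  have e4 : ¬ G.Adj b a := fun h => e3 h.symm
  refine ⟨fun i => if i = 0 then a else if i = 1 then u else b, ⟨fun i hi j hj hij => ?_,
    fun i hi j hj => ?_⟩, ?_⟩
  · interval_cases i <;> interval_cases j <;>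
      simp_all [Ne.symm n1, Ne.symm n2, Ne.symm hab]
  · interval_cases i <;> interval_cases j <;> simp_all [G.adj_comm]
  · intro i
    by_cases h0 : i = 0
    · simp [h0, ha.1]
    · by_cases h1 : i = 1
      · simp [h1, hu]
      · simp [h0, h1, hb.1]

/-- the average degree bound, `L + 3` -/
theorem bip3 [Fintype V] {c : V → Bool} (hc : ∀ u v, G.Adj u v → c u ≠ c v) (hC : C4Free G)
    {L : ℕ} (hL : 2 ≤ L) {S : Finset V} (hS : S.Nonempty)
    (h1 : ∀ v ∈ S, L + 1 ≤ 2 * dS G S v)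
    (h2 : ∀ v ∈ S, ∀ w ∈ S, G.Adj v w → L + 2 ≤ dS G S v + dS G S w) :
    ∃ (f : ℕ → V) (k : ℕ), L + 3 ≤ k ∧ IP G f k := by
  classical
  obtain ⟨f0, hf0, hf0S⟩ := exists_start hc hS (fun v hv => by have := h1 v hv; omega)
  obtain ⟨f, k, hk3, -, hf, hb, hz⟩ := exists_sblk S (Fintype.card V) f0 3 (by omega) hf0 le_rfl
    (hf0S _)
  by_cases hkL : L + 3 ≤ k
  · exact ⟨f, k, hkL, hf⟩
  obtain ⟨c1, c2⟩ := countB hc hC hf hk3 hb
  have h3 := h1 _ hz
  obtain ⟨w, hwS, hw1, hw2, hw3⟩ := c2 (by omega) 0 (by omega) (by omega)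
  have q1 : IP G (fun i => f (i + 1)) (k - 1) := hf.shift 1 (k - 1) (by omega)
  have q2 := q1.snoc (by omega) (w := w)
    (by
      have e : k - 1 - 1 + 1 = k - 1 := by omega
      simpa only [e] using hw1)
    (by
      intro i hi
      exact hw3 (i + 1) (by omega) (by omega))
  have ek : k - 1 + 1 = k := by omega
  rw [ek] at q2
  by_cases hb2 : SBlk G S (fun i => if i < k - 1 then f (i + 1) else w) k
  · exfalso
    have c3 := (countB hc hC q2 hk3 hb2).1
    have e : ¬ (k - 1 < k - 1) := by omega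
    simp only [e, if_false] at c3
    have := h2 _ hz w hwS hw1.symm
    omega
  · obtain ⟨x, -, hx, hn⟩ := not_sblk hb2
    exact ⟨_, k + 1, by omega, q2.snoc hk3 hx hn⟩

end Pool.Agent.H649.InducedPath
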