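import Pool.Agent.H649.InducedPathMain

namespace Pool.Agent.H649.InducedPath

open Finset

variable {V : Type*} {G : SimpleGraph V}

/-- every neighbour in `S` of the last vertex is adjacent to another vertex of the path -/
def SBlk (G : SimpleGraph V) (S : Finset V) (f : ℕ → V) (k : ℕ) : Prop :=
  ∀ w ∈ S, G.Adj w (f (k - 1)) → ∃ i, i + 1 < k ∧ G.Adj w (f i)

lemma not_sblk {S : Finset V} {f : ℕ → V} {k : ℕ} (h : ¬ SBlk G S f k) :
    ∃ w ∈ S, G.Adj w (f (k - 1)) ∧ ∀ i, i + 1 < k → ¬ G.Adj w (f i) := by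
  unfold SBlk at h
  push Not at h
  exact h

lemma exists_sblk [Fintype V] (S : Finset V) : ∀ (n : ℕ) (f : ℕ → V) (k : ℕ),
    Fintype.card V ≤ k + n → IP G f k → 3 ≤ k → f (k - 1) ∈ S →
    ∃ (g : ℕ → V) (m : ℕ), k ≤ m ∧ (∀ i < k, g i = f i) ∧ IP G g m ∧
      SBlk G S g m ∧ g (m - 1) ∈ S := by
  intro n
  induction n with
  | zero =>
    intro f k hc hf hk hS
    by_cases hb : SBlk G S f k
    · exact ⟨f, k, le_rfl, fun _ _ => rfl, hf, hb, hS⟩
    · obtain ⟨w, -, hw, hn⟩ := not_sblk hb
      have := (hf.snoc hk hw hn).card_le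
      omega
  | succ n ih =>
    intro f k hc hf hk hS
    by_cases hb : SBlk G S f k
    · exact ⟨f, k, le_rfl, fun _ _ => rfl, hf, hb, hS⟩
    · obtain ⟨w, hwS, hw, hn⟩ := not_sblk hb
      obtain ⟨g, m, h1, h2, h3, h4, h5⟩ := ih _ (k + 1) (by omega) (hf.snoc hk hw hn) (by omega)
        (by simpa using hwS)
      refine ⟨g, m, by omega, ?_, h3, h4, h5⟩
      intro i hi
      rw [h2 i (by omega)]
      simp [hi]

/-- the counting lemma at a blocked end, relative version -/
lemma countS (hC : C4Free G) {f : ℕ → V} {k : ℕ} (hf : IP G f k) (hk : 3 ≤ k)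
    (I : Finset V) (hI : ∀ w ∈ I, G.Adj w (f (k - 1)))
    (hb : ∀ w ∈ I, ∃ i, i + 1 < k ∧ G.Adj w (f i))
    (hind : ∀ w ∈ I, ∀ w' ∈ I, ¬ G.Adj w w')
    (F : Finset ℕ) (hF : ∀ i ∈ F, i + 4 ≤ k)
    (hF' : ∀ i ∈ F, ∀ w, G.Adj w (f (k - 1)) → ¬ G.Adj w (f i)) :
    I.card + 2 + F.card ≤ k ∧ (k ≤ I.card + 2 + F.card → ∀ i, i + 4 ≤ k → i ∉ F →
      ∃ w ∈ I, G.Adj w (f (k - 1)) ∧ G.Adj w (f i) ∧ ∀ j < k - 1, j ≠ i → ¬ G.Adj w (f j)) := by
  classical
  let R : V → ℕ → Prop := fun w i => i + 1 < k ∧ i + 3 ≠ k ∧ (G.Adj w (f i) ∨ (i + 2 = k ∧ w = f i))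
  have hz : ∀ i, i + 1 < k → f i ≠ f (k - 1) := by
    intro i hi h
    have := hf.1 i (by omega) (k - 1) (by omega) h
    omega
  have a32 : G.Adj (f (k - 3)) (f (k - 2)) := by
    rw [hf.2 (k - 3) (by omega) (k - 2) (by omega)]; omega
  have a21 : G.Adj (f (k - 2)) (f (k - 1)) := by
    rw [hf.2 (k - 2) (by omega) (k - 1) (by omega)]; omega
  have h3 : ∀ w, G.Adj w (f (k - 1)) → w ≠ f (k - 2) → ¬ G.Adj w (f (k - 3)) := by
    intro w hw hne h
    exact hC w (f (k - 3)) (f (k - 2)) (f (k - 1)) hne (hz (k - 3) (by omega)) h a32 a21 hw.symm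
  have hR1 : ∀ w ∈ I, ∃ i, R w i := by
    intro w hw
    obtain ⟨i, hi, hadj⟩ := hb w hw
    by_cases h : i + 3 = k
    · by_cases hw2 : w = f (k - 2)
      · refine ⟨k - 2, by omega, by omega, Or.inr ⟨by omega, hw2⟩⟩
      · have : i = k - 3 := by omega
        subst this
        exact absurd hadj (h3 w (hI w hw) hw2)
    · exact ⟨i, hi, h, Or.inl hadj⟩
  have hR2 : ∀ w ∈ I, ∀ w' ∈ I, ∀ i, R w i → R w' i → w = w' := by
    intro w hw w' hw' i h h'
    by_contra hne
    rcases h.2.2 with h1 | h1 <;> rcases h'.2.2 with h2 | h2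
    · exact hC w (f i) w' (f (k - 1)) hne (hz i h.1) h1 h2.symm (hI w' hw') (hI w hw).symm
    · rw [← h2.2] at h1
      exact hind w hw w' hw' h1
    · rw [← h1.2] at h2
      exact hind w' hw' w hw h2
    · exact hne (h1.2.trans h2.2.symm)
  choose! φ hφ using hR1
  let T : Finset ℕ := range k \ ({k - 1, k - 3} ∪ F)
  have hTc : T.card + (2 + F.card) = k := by
    have hsub : ({k - 1, k - 3} ∪ F : Finset ℕ) ⊆ range k := by
      intro i hi
      simp only [mem_union, mem_insert, mem_singleton] at hi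
      rw [mem_range]
      rcases hi with (h | h) | h
      · omega
      · omega
      · have := hF i h; omega
    have hc2 : ({k - 1, k - 3} ∪ F : Finset ℕ).card = 2 + F.card := by
      rw [card_union_of_disjoint, card_pair (by omega)]
      rw [disjoint_left]
      intro i hi hiF
      simp only [mem_insert, mem_singleton] at hi
      have := hF i hiF
      omega
    have := card_sdiff_add_card_eq_card hsub
    rw [hc2, card_range] at this
    exact this
  have hRT : ∀ w, G.Adj w (f (k - 1)) → ∀ i, R w i → i ∈ T := by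
    intro w hw i hi
    simp only [T, mem_sdiff, mem_range, mem_union, mem_insert, mem_singleton, not_or]
    obtain ⟨h1, h2, h4⟩ := hi
    refine ⟨by omega, ⟨by omega, by omega⟩, ?_⟩
    intro hiF
    have := hF i hiF
    rcases h4 with h4 | h4
    · exact hF' i hiF w hw h4
    · omega
  have hmap : ∀ w ∈ I, φ w ∈ T := fun w hw => hRT w (hI w hw) _ (hφ w hw)
  have hinj : Set.InjOn φ I := by
    intro w hw w' hw' h
    have h1 := hφ w hw
    have h2 := hφ w' hw'
    rw [← h] at h2
    exact hR2 w hw w' hw' _ h1 h2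
  have hcard : I.card ≤ T.card := card_le_card_of_injOn φ hmap hinj
  refine ⟨by omega, ?_⟩
  intro hge i hi4 hiF
  have himg : I.image φ = T := by
    apply eq_of_subset_of_card_le
    · intro x hx
      obtain ⟨w, hw, rfl⟩ := mem_image.1 hx
      exact hmap w hw
    · rw [card_image_of_injOn hinj]
      omega
  have hiT : i ∈ T := by
    simp only [T, mem_sdiff, mem_range, mem_union, mem_insert, mem_singleton, not_or]
    exact ⟨by omega, ⟨by omega, by omega⟩, hiF⟩
  rw [← himg] at hiT
  obtain ⟨w, hw, hwi⟩ := mem_image.1 hiT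
  have hRw := hφ w hw
  rw [hwi] at hRw
  have hadj : G.Adj w (f i) := by
    rcases hRw.2.2 with h | h
    · exact h
    · omega
  refine ⟨w, hw, hI w hw, hadj, ?_⟩
  intro j hj hji hadj'
  by_cases hj3 : j + 3 = k
  · have : j = k - 3 := by omega
    subst this
    by_cases hw2 : w = f (k - 2)
    · rw [hw2] at hadj
      have := (hf.2 (k - 2) (by omega) i (by omega)).1 hadj
      omega
    · exact h3 w (hI w hw) hw2 hadj'
  · have hRj : R w j := ⟨by omega, hj3, Or.inl hadj'⟩
    have hjT := hRT w (hI w hw) j hRj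
    rw [← himg] at hjT
    obtain ⟨w', hw', hwj⟩ := mem_image.1 hjT
    have hRw' := hφ w' hw'
    rw [hwj] at hRw'
    have := hR2 w hw w' hw' j hRj hRw'
    subst this
    exact hji (hwj.symm.trans hwi)

section deletion

variable (G)

open Classical in
/-- degree into `S` -/
noncomputable def dS (S : Finset V) (v : V) : ℕ := (S.filter (fun u => G.Adj v u)).card

/-- twice the number of edges inside `S` -/
noncomputable def mS (S : Finset V) : ℕ := ∑ v ∈ S, dS G S v

variable {G}

lemma dS_erase [DecidableEq V] {S : Finset V} {v u : V} (hv : v ∈ S) (h : G.Adj u v) :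
    dS G (S.erase v) u + 1 = dS G S u := by
  classical
  unfold dS
  have : (S.erase v).filter (fun x => G.Adj u x) = (S.filter (fun x => G.Adj u x)).erase v := by
    rw [filter_erase]
  rw [this]
  exact card_erase_add_one (mem_filter.2 ⟨hv, h⟩)

lemma dS_erase' [DecidableEq V] {S : Finset V} {v u : V} (h : ¬ G.Adj u v) :
    dS G (S.erase v) u = dS G S u := by
  classical
  unfold dS
  have : (S.erase v).filter (fun x => G.Adj u x) = (S.filter (fun x => G.Adj u x)).erase v := by
    rw [filter_erase]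
  rw [this, erase_eq_of_notMem]
  simp [h]

lemma mS_erase [DecidableEq V] {S : Finset V} {v : V} (hv : v ∈ S) :
    mS G (S.erase v) + 2 * dS G S v = mS G S := by
  classical
  unfold mS
  rw [← add_sum_erase S _ hv]
  have h1 : ∑ u ∈ S.erase v, dS G S u = ∑ u ∈ S.erase v, dS G (S.erase v) u + dS G S v := by
    have h2 : ∀ u ∈ S.erase v, dS G S u = dS G (S.erase v) u + if G.Adj v u then 1 else 0 := by
      intro u hu
      by_cases h : G.Adj v u
      · rw [if_pos h, dS_erase hv h.symm]
      · rw [if_neg h, dS_erase' (fun h' => h h'.symm), add_zero]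
    rw [sum_congr rfl h2, sum_add_distrib]
    congr 1
    rw [← card_filter]
    unfold dS
    congr 1
    ext x
    simp only [mem_filter, mem_erase]
    constructor
    · rintro ⟨⟨_, h2⟩, h3⟩; exact ⟨h2, h3⟩
    · rintro ⟨h2, h3⟩; exact ⟨⟨h3.ne', h2⟩, h3⟩
  rw [h1]
  ring

/-- the balanced core -/
lemma exists_core [Fintype V] [Nonempty V] {L : ℕ} (hL : 2 ≤ L)
    (h : L * Fintype.card V ≤ mS G (univ : Finset V)) :
    ∃ S : Finset V, S.Nonempty ∧ (∀ v ∈ S, L + 1 ≤ 2 * dS G S v) ∧
      ∀ v ∈ S, ∀ w ∈ S, G.Adj v w → L + 2 ≤ dS G S v + dS G S w := by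
  classical
  let P : Finset (Finset V) := univ.filter (fun S => S.Nonempty ∧ L * S.card ≤ mS G S)
  have hP : P.Nonempty := ⟨univ, by
    simp only [P, mem_filter, mem_univ, true_and]
    exact ⟨univ_nonempty, by simpa using h⟩⟩
  obtain ⟨S, hS, hmin⟩ := exists_min_image P card hP
  simp only [P, mem_filter, mem_univ, true_and] at hS hmin
  have hmin' : ∀ S' : Finset V, S'.Nonempty → S'.card < S.card → mS G S' < L * S'.card := by
    intro S' h1 h2
    by_contra h3
    have := hmin S' ⟨h1, by omega⟩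
    omega
  have h1 : ∀ v ∈ S, L + 1 ≤ 2 * dS G S v := by
    intro v hv
    have e1 := mS_erase (G := G) hv
    have e2 := card_erase_add_one hv
    rcases (S.erase v).eq_empty_or_nonempty with h0 | h0
    · exfalso
      have : S = {v} := by
        rw [erase_eq_empty_iff] at h0
        rcases h0 with h0 | h0
        · rw [h0] at hv; simp at hv
        · exact h0
      have hm : mS G S = 0 := by
        rw [this]
        simp [mS, dS]
      rw [hm, this] at hS
      simp at hS
      omega
    · have h2 := hmin' _ h0 (by omega)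
      have h3 := hS.2
      rw [← e2] at h3
      nlinarith
  refine ⟨S, hS.1, h1, ?_⟩
  intro v hv w hw hvw
  have hw' : w ∈ S.erase v := mem_erase.2 ⟨hvw.ne', hw⟩
  have e1 := mS_erase (G := G) hv
  have e2 := card_erase_add_one hv
  have e3 := mS_erase (G := G) hw'
  have e4 := card_erase_add_one hw'
  have e5 := dS_erase (G := G) hv hvw.symm
  rcases ((S.erase v).erase w).eq_empty_or_nonempty with h0 | h0
  · exfalso
    rw [h0] at e4 e3
    simp [mS] at e3 e4
    have h3 := hS.2
    -- `dS (S.erase v) w = 0` since `S.erase v = {w}`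
    have h4 : dS G (S.erase v) w ≤ 0 := by
      unfold dS
      rw [Nat.le_zero, card_eq_zero, filter_eq_empty_iff]
      intro x hx hadj
      have : x = w := by
        by_contra hne
        have : x ∈ (S.erase v).erase w := mem_erase.2 ⟨hne, hx⟩
        rw [h0] at this
        simp at this
      rw [this] at hadj
      exact G.irrefl hadj
    have h5 : dS G S v ≤ 1 := by
      have h6 : dS G S v ≤ (S.erase v).card := by
        unfold dS
        apply card_le_card
        intro x hx
        rw [mem_filter] at hx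
        exact mem_erase.2 ⟨hx.2.ne', hx.1⟩
      omega
    have h7 := h1 v hv
    omega
  · have h2 := hmin' _ h0 (by omega)
    have h3 := hS.2
    rw [← e2, ← e4] at h3
    nlinarith

end deletion

end Pool.Agent.H649.InducedPath
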