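import Pool.Agent.H649.BipFour

namespace Pool.Agent.H649.InducedPath

open Finset

variable {V : Type*} {G : SimpleGraph V}

/-- distance plus average, up to the constant 3 -/
theorem bipRad [Fintype V] (hG : G.Connected) {c : V → Bool}
    (hc : ∀ u v, G.Adj u v → c u ≠ c v) (hC : C4Free G)
    {L : ℕ} {S : Finset V} (h1 : ∀ v ∈ S, L + 1 ≤ 2 * dS G S v)
    (q z0 : V) (hz0 : z0 ∈ S) (hD : 2 ≤ G.dist q z0) :
    ∃ (f : ℕ → V) (k : ℕ), G.dist q z0 + L ≤ k + 3 ∧ IP G f k := by
  classical
  obtain ⟨g, hg0, hgD, hg⟩ := exists_geo hG q z0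
  set D := G.dist q z0 with hDdef
  obtain ⟨f, k, hk1, hfg, hf, hb, hz⟩ := exists_sblk S (Fintype.card V) g (D + 1) (by omega)
    (geo_IP hg) (by omega) (by
      have e : D + 1 - 1 = D := by omega
      rw [e, hgD]; exact hz0)
  have hd : ∀ i j, i ≤ j → j ≤ D → G.dist (f i) (f j) = j - i := by
    intro i j h1 h2
    rw [hfg i (by omega), hfg j (by omega)]
    exact hg i j h1 h2
  refine ⟨f, k, ?_, hf⟩
  have hdz := h1 _ hz
  set I := S.filter (fun u => G.Adj (f (k - 1)) u) with hIdef
  have hIc : I.card = dS G S (f (k - 1)) := by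
    unfold dS
    congr!
  have hmem : ∀ w ∈ I, w ∈ S ∧ G.Adj (f (k - 1)) w := fun w hw => by
    rw [hIdef, mem_filter] at hw; exact hw
  set F := (range (k - 3)).filter
    (fun i => ¬ ((i + k) % 2 = 1 ∧ (D < i ∨ G.dist (f i) (f (k - 1)) ≤ 2))) with hFdef
  set U := (range (k - 3)).filter
    (fun i => ((i + k) % 2 = 1 ∧ (D < i ∨ G.dist (f i) (f (k - 1)) ≤ 2))) with hUdef
  have hFU : U.card + F.card = k - 3 := by
    rw [hFdef, hUdef, card_filter_add_card_filter_not, card_range]
  have c1 := (countS hC hf (by omega) I (fun w hw => (hmem w hw).2.symm)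
    (fun w hw => hb w (hmem w hw).1 (hmem w hw).2.symm)
    (fun w hw w' hw' h => by
      have a1 := hc _ _ (hmem w hw).2
      have a2 := hc _ _ (hmem w' hw').2
      have a3 := hc _ _ h
      revert a1 a2 a3
      cases c (f (k - 1)) <;> cases c w <;> cases c w' <;> simp)
    F
    (fun i hi => by
      rw [hFdef, mem_filter, mem_range] at hi
      omega)
    (fun i hi w h1 h2 => by
      rw [hFdef, mem_filter, mem_range] at hi
      have h3 := parity_common hc hf (by omega) (by omega) h1 h2
      apply hi.2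
      refine ⟨by omega, Or.inr ?_⟩
      have t := hG.dist_triangle (u := f i) (v := w) (w := f (k - 1))
      rw [SimpleGraph.dist_eq_one_iff_adj.2 h2.symm, SimpleGraph.dist_eq_one_iff_adj.2 h1] at t
      omega)).1
  set U1 := (range (k - 3)).filter
    (fun i => (i + k) % 2 = 1 ∧ i ≤ D ∧ G.dist (f i) (f (k - 1)) ≤ 2) with hU1def
  set U2 := (range (k - 3)).filter (fun i => (i + k) % 2 = 1 ∧ D < i) with hU2def
  have hU12 : U.card ≤ U1.card + U2.card := by
    refine (card_le_card ?_).trans (card_union_le _ _)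
    intro i hi
    rw [hUdef, mem_filter, mem_range] at hi
    rw [mem_union, hU1def, hU2def, mem_filter, mem_filter, mem_range]
    by_cases h : D < i
    · exact Or.inr ⟨hi.1, hi.2.1, h⟩
    · refine Or.inl ⟨hi.1, hi.2.1, by omega, ?_⟩
      rcases hi.2.2 with h' | h'
      · exact absurd h' h
      · exact h'
  have hU2c : U2.card ≤ (k - 4 - D) / 2 := by
    have hsub : U2 ⊆ (range ((k - 4 - D) / 2)).image (fun j => k - 5 - 2 * j) := by
      intro i hi
      rw [hU2def, mem_filter, mem_range] at hi
      rw [mem_image]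
      refine ⟨(k - 5 - i) / 2, ?_, ?_⟩
      · rw [mem_range]; omega
      · omega
    exact (card_le_card hsub).trans (card_image_le.trans (by rw [card_range]))
  have hnear : ∀ i j, i ≤ j → j ≤ D → G.dist (f i) (f (k - 1)) ≤ 2 →
      G.dist (f j) (f (k - 1)) ≤ 2 → j ≤ i + 4 := by
    intro i j hij hj e1 e2
    have t := hG.dist_triangle (u := f i) (v := f (k - 1)) (w := f j)
    rw [hd i j hij hj, SimpleGraph.dist_comm (u := f (k - 1)) (v := f j)] at t
    omega
  have hU1m : ∀ i ∈ U1, i < k - 3 ∧ (i + k) % 2 = 1 ∧ i ≤ D ∧ G.dist (f i) (f (k - 1)) ≤ 2 := by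
    intro i hi
    rw [hU1def, mem_filter, mem_range] at hi
    exact hi
  have hU1c : U1.card ≤ 3 := by
    rcases U1.eq_empty_or_nonempty with h | h
    · rw [h]; simp
    · obtain ⟨a, ha, hmin⟩ := U1.exists_min_image id h
      simp only [id] at hmin
      have hsub : U1 ⊆ {a, a + 2, a + 4} := by
        intro i hi
        have m1 := hU1m i hi
        have m2 := hU1m a ha
        have m3 := hmin i hi
        have m4 := hnear a i m3 m1.2.2.1 m2.2.2.2 m1.2.2.2
        simp only [mem_insert, mem_singleton]
        omega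
      exact (card_le_card hsub).trans card_le_three
  have hstep : ∀ i, i + 1 < k → G.dist (f i) (f (i + 1)) = 1 := by
    intro i hi
    rw [SimpleGraph.dist_eq_one_iff_adj, hf.2 _ (by omega) _ (by omega)]
    omega
  have hd3 : G.dist (f (k - 3)) (f (k - 1)) ≤ 2 := by
    have s1 := hstep (k - 3) (by omega)
    have s2 := hstep (k - 2) (by omega)
    have e1 : k - 3 + 1 = k - 2 := by omega
    have e2 : k - 2 + 1 = k - 1 := by omega
    rw [e1] at s1
    rw [e2] at s2
    have t := hG.dist_triangle (u := f (k - 3)) (v := f (k - 2)) (w := f (k - 1))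
    omega
  by_cases hk4 : D + 4 ≤ k
  · omega
  · have hU1c2 : U1.card ≤ 2 := by
      have hsub : U1 ⊆ {k - 5, k - 7} := by
        intro i hi
        have m1 := hU1m i hi
        have m4 := hnear i (k - 3) (by omega) (by omega) m1.2.2.2 hd3
        simp only [mem_insert, mem_singleton]
        omega
      exact (card_le_card hsub).trans card_le_two
    by_cases hkD : k = D + 1
    · have hU1c0 : U1.card = 0 := by
        rw [card_eq_zero, eq_empty_iff_forall_notMem]
        intro i hi
        have m1 := hU1m i hi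
        have e : k - 1 = D := by omega
        rw [e, hd i D (by omega) le_rfl] at m1
        omega
      omega
    · omega

end Pool.Agent.H649.InducedPath
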