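import Pool.Agent.H649.BipMain

namespace Pool.Agent.H649.InducedPath

open Finset

variable {V : Type*} {G : SimpleGraph V}

/-- the balanced core, with its minimality -/
lemma exists_core' [Fintype V] [Nonempty V] {L : ℕ} (hL : 2 ≤ L)
    (h : L * Fintype.card V ≤ mS G (univ : Finset V)) :
    ∃ S : Finset V, S.Nonempty ∧ (∀ v ∈ S, L + 1 ≤ 2 * dS G S v) ∧
      (∀ v ∈ S, ∀ w ∈ S, G.Adj v w → L + 2 ≤ dS G S v + dS G S w) ∧
      L * S.card ≤ mS G S ∧
      (∀ S' : Finset V, S'.Nonempty → S'.card < S.card → mS G S' < L * S'.card) := by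
  classical
  let P : Finset (Finset V) := univ.filter (fun S => S.Nonempty ∧ L * S.card ≤ mS G S)
  have hP : P.Nonempty := ⟨univ, by
    simp only [P, mem_filter, mem_univ, true_and]
    exact ⟨univ_nonempty, by simpa using h⟩⟩
  obtain ⟨S, hS, hmin⟩ := exists_min_image P card hP
  simp only [P, mem_filter, mem_univ, true_and] at hS hmin
  have hmin' : ∀ S' : Finset V, S'.Nonempty → S'.card < S.card → mS G S' < L * S'.card := by
    intro S' h1 h2
    by_contra h3
    have := hmin S' ⟨h1, by omega⟩
    omega
  have h1 : ∀ v ∈ S, L + 1 ≤ 2 * dS G S v := by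
    intro v hv
    have e1 := mS_erase (G := G) hv
    have e2 := card_erase_add_one hv
    rcases (S.erase v).eq_empty_or_nonempty with h0 | h0
    · exfalso
      have : S = {v} := by
        rw [erase_eq_empty_iff] at h0
        rcases h0 with h0 | h0
        · rw [h0] at hv; simp at hv
        · exact h0
      have hm : mS G S = 0 := by
        rw [this]
        simp [mS, dS]
      rw [hm, this] at hS
      simp at hS
      omega
    · have h2 := hmin' _ h0 (by omega)
      have h3 := hS.2
      rw [← e2] at h3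
      nlinarith
  refine ⟨S, hS.1, h1, ?_, hS.2, hmin'⟩
  intro v hv w hw hvw
  have hw' : w ∈ S.erase v := mem_erase.2 ⟨hvw.ne', hw⟩
  have e1 := mS_erase (G := G) hv
  have e2 := card_erase_add_one hv
  have e3 := mS_erase (G := G) hw'
  have e4 := card_erase_add_one hw'
  have e5 := dS_erase (G := G) hv hvw.symm
  rcases ((S.erase v).erase w).eq_empty_or_nonempty with h0 | h0
  · exfalso
    rw [h0] at e4 e3
    simp [mS] at e3 e4
    have h3 := hS.2
    -- `dS (S.erase v) w = 0` since `S.erase v = {w}`
    have h4 : dS G (S.erase v) w ≤ 0 := by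
      unfold dS
      rw [Nat.le_zero, card_eq_zero, filter_eq_empty_iff]
      intro x hx hadj
      have : x = w := by
        by_contra hne
        have : x ∈ (S.erase v).erase w := mem_erase.2 ⟨hne, hx⟩
        rw [h0] at this
        simp at this
      rw [this] at hadj
      exact G.irrefl hadj
    have h5 : dS G S v ≤ 1 := by
      have h6 : dS G S v ≤ (S.erase v).card := by
        unfold dS
        apply card_le_card
        intro x hx
        rw [mem_filter] at hx
        exact mem_erase.2 ⟨hx.2.ne', hx.1⟩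
      omega
    have h7 := h1 v hv
    omega
  · have h2 := hmin' _ h0 (by omega)
    have h3 := hS.2
    rw [← e2, ← e4] at h3
    nlinarith


lemma exists_sblk' [Fintype V] (S : Finset V) : ∀ (n : ℕ) (f : ℕ → V) (k : ℕ),
    Fintype.card V ≤ k + n → IP G f k → 3 ≤ k → (∀ i < k, f i ∈ S) →
    ∃ (g : ℕ → V) (m : ℕ), k ≤ m ∧ IP G g m ∧ SBlk G S g m ∧ ∀ i < m, g i ∈ S := by
  intro n
  induction n with
  | zero =>
    intro f k hc hf hk hS
    by_cases hb : SBlk G S f k
    · exact ⟨f, k, le_rfl, hf, hb, hS⟩
    · obtain ⟨w, -, hw, hn⟩ := not_sblk hb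
      have := (hf.snoc hk hw hn).card_le
      omega
  | succ n ih =>
    intro f k hc hf hk hS
    by_cases hb : SBlk G S f k
    · exact ⟨f, k, le_rfl, hf, hb, hS⟩
    · obtain ⟨w, hwS, hw, hn⟩ := not_sblk hb
      obtain ⟨g, m, h1, h2, h3, h4⟩ := ih _ (k + 1) (by omega) (hf.snoc hk hw hn) (by omega)
        (by
          intro i hi
          by_cases h : i < k
          · simp [h, hS i h]
          · simp [h, hwS])
      exact ⟨g, m, by omega, h2, h3, h4⟩

/-- as `bip3`, with all vertices in `S` -/
theorem bip3' [Fintype V] {c : V → Bool} (hc : ∀ u v, G.Adj u v → c u ≠ c v) (hC : C4Free G)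
    {L : ℕ} (hL : 2 ≤ L) {S : Finset V} (hS : S.Nonempty)
    (h1 : ∀ v ∈ S, L + 1 ≤ 2 * dS G S v)
    (h2 : ∀ v ∈ S, ∀ w ∈ S, G.Adj v w → L + 2 ≤ dS G S v + dS G S w) :
    ∃ (f : ℕ → V) (k : ℕ), L + 3 ≤ k ∧ IP G f k ∧ ∀ i < k, f i ∈ S := by
  classical
  obtain ⟨f0, hf0, hf0S⟩ := exists_start hc hS (fun v hv => by have := h1 v hv; omega)
  obtain ⟨f, k, hk3, hf, hb, hzS⟩ := exists_sblk' S (Fintype.card V) f0 3 (by omega) hf0 le_rfl
    (fun i _ => hf0S i)
  have hz := hzS (k - 1) (by omega)
  by_cases hkL : L + 3 ≤ k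
  · exact ⟨f, k, hkL, hf, hzS⟩
  obtain ⟨c1, c2⟩ := countB hc hC hf hk3 hb
  have h3 := h1 _ hz
  obtain ⟨w, hwS, hw1, hw2, hw3⟩ := c2 (by omega) 0 (by omega) (by omega)
  have q1 : IP G (fun i => f (i + 1)) (k - 1) := hf.shift 1 (k - 1) (by omega)
  have q2 := q1.snoc (by omega) (w := w)
    (by
      have e : k - 1 - 1 + 1 = k - 1 := by omega
      simpa only [e] using hw1)
    (by
      intro i hi
      exact hw3 (i + 1) (by omega) (by omega))
  have ek : k - 1 + 1 = k := by omega
  rw [ek] at q2
  by_cases hb2 : SBlk G S (fun i => if i < k - 1 then f (i + 1) else w) k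
  · exfalso
    have c3 := (countB hc hC q2 hk3 hb2).1
    have e : ¬ (k - 1 < k - 1) := by omega
    simp only [e, if_false] at c3
    have := h2 _ hz w hwS hw1.symm
    omega
  · obtain ⟨x, hxS, hx, hn⟩ := not_sblk hb2
    refine ⟨_, k + 1, by omega, q2.snoc hk3 hx hn, ?_⟩
    intro i hi
    by_cases h : i < k
    · by_cases h' : i < k - 1
      · simp only [h, h', if_true]
        exact hzS _ (by omega)
      · simp only [h, h', if_true, if_false]
        exact hwS
    · simp only [h, if_false]
      exact hxS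

/-- rotation -/
lemma rot {f : ℕ → V} {k : ℕ} (hf : IP G f k) {i : ℕ} (hi : i + 4 ≤ k) {w : V}
    (hw1 : G.Adj w (f (k - 1))) (hw2 : G.Adj w (f i))
    (hw3 : ∀ j < k - 1, j ≠ i → ¬ G.Adj w (f j)) :
    IP G (fun j => if j ≤ i then f j else if j = i + 1 then w else f (k + i + 1 - j)) k := by
  have hadj : ∀ m < k, (G.Adj w (f m) ↔ (m = i ∨ m = k - 1)) := by
    intro m hm
    constructor
    · intro h
      by_contra hne
      push Not at hne
      exact hw3 m (by omega) hne.1 h
    · rintro (h | h)
      · rw [h]; exact hw2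
      · rw [h]; exact hw1
  have hadj' : ∀ m < k, (G.Adj (f m) w ↔ (m = i ∨ m = k - 1)) := by
    intro m hm
    rw [G.adj_comm]; exact hadj m hm
  have hne : ∀ m < k, w ≠ f m := by
    intro m hm h
    have a1 := hw1
    have a2 := hw2
    rw [h] at a1 a2
    rw [hf.2 m hm _ (by omega)] at a1 a2
    omega
  refine ⟨fun a ha b hb hab => ?_, fun a ha b hb => ?_⟩
  · by_cases h1 : a ≤ i <;> by_cases h2 : b ≤ i
    · simp only [h1, h2, if_true] at hab
      exact hf.1 a ha b hb hab
    · by_cases h3 : b = i + 1
      · simp only [h1, h2, if_true, if_false] at hab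
        rw [if_pos h3] at hab
        exact absurd hab.symm (hne a ha)
      · simp only [h1, h2, if_true, if_false] at hab
        rw [if_neg h3] at hab
        have := hf.1 a ha _ (by omega) hab
        omega
    · by_cases h3 : a = i + 1
      · simp only [h1, h2, if_true, if_false] at hab
        rw [if_pos h3] at hab
        exact absurd hab (hne b hb)
      · simp only [h1, h2, if_true, if_false] at hab
        rw [if_neg h3] at hab
        have := hf.1 _ (by omega) b hb hab
        omega
    · simp only [h1, h2, if_false] at hab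
      by_cases h3 : a = i + 1 <;> by_cases h4 : b = i + 1
      · omega
      · rw [if_pos h3, if_neg h4] at hab
        exact absurd hab (hne _ (by omega))
      · rw [if_neg h3, if_pos h4] at hab
        exact absurd hab.symm (hne _ (by omega))
      · rw [if_neg h3, if_neg h4] at hab
        have := hf.1 _ (by omega) _ (by omega) hab
        omega
  · by_cases h1 : a ≤ i <;> by_cases h2 : b ≤ i
    · simp only [h1, h2, if_true]
      exact hf.2 a ha b hb
    · simp only [h1, h2, if_true, if_false]
      by_cases h3 : b = i + 1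
      · rw [if_pos h3, hadj' a ha]
        constructor <;> intro h <;> omega
      · rw [if_neg h3, hf.2 a ha _ (by omega)]
        constructor <;> intro h <;> omega
    · simp only [h1, h2, if_true, if_false]
      by_cases h3 : a = i + 1
      · rw [if_pos h3, hadj b hb]
        constructor <;> intro h <;> omega
      · rw [if_neg h3, hf.2 _ (by omega) b hb]
        constructor <;> intro h <;> omega
    · simp only [h1, h2, if_false]
      by_cases h3 : a = i + 1 <;> by_cases h4 : b = i + 1
      · rw [if_pos h3, if_pos h4]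
        constructor
        · intro h; exact absurd h G.irrefl
        · intro h; omega
      · rw [if_pos h3, if_neg h4, hadj _ (by omega)]
        constructor <;> intro h <;> omega
      · rw [if_neg h3, if_pos h4, hadj' _ (by omega)]
        constructor <;> intro h <;> omega
      · rw [if_neg h3, if_neg h4, hf.2 _ (by omega) _ (by omega)]
        constructor <;> intro h <;> omega

section deletion2

variable [DecidableEq V]

lemma dS_split {S T : Finset V} (hT : T ⊆ S) (v : V) :
    dS G S v = dS G (S \ T) v + dS G T v := by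
  classical
  unfold dS
  rw [← card_union_of_disjoint]
  · congr 1
    ext x
    simp only [mem_filter, mem_union, mem_sdiff]
    constructor
    · rintro ⟨h1, h2⟩
      by_cases h : x ∈ T
      · exact Or.inr ⟨h, h2⟩
      · exact Or.inl ⟨⟨h1, h⟩, h2⟩
    · rintro (⟨⟨h1, _⟩, h2⟩ | ⟨h1, h2⟩)
      · exact ⟨h1, h2⟩
      · exact ⟨hT h1, h2⟩
  · rw [disjoint_left]
    intro x hx hx'
    simp only [mem_filter, mem_sdiff] at hx hx'
    exact hx.1.2 hx'.1

omit [DecidableEq V] in
lemma dS_swap (A B : Finset V) : ∑ v ∈ A, dS G B v = ∑ v ∈ B, dS G A v := by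
  classical
  unfold dS
  simp only [card_filter]
  rw [sum_comm]
  refine sum_congr rfl (fun x _ => sum_congr rfl (fun y _ => ?_))
  simp only [G.adj_comm]

lemma mS_split {S T : Finset V} (hT : T ⊆ S) :
    mS G S + mS G T = mS G (S \ T) + 2 * ∑ v ∈ T, dS G S v := by
  classical
  unfold mS
  have e1 : ∑ v ∈ S, dS G S v = ∑ v ∈ S \ T, dS G S v + ∑ v ∈ T, dS G S v :=
    (sum_sdiff hT).symm
  have e2 : ∑ v ∈ S \ T, dS G S v = ∑ v ∈ S \ T, dS G (S \ T) v + ∑ v ∈ S \ T, dS G T v := by
    rw [← sum_add_distrib]
    exact sum_congr rfl (fun v _ => dS_split hT v)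
  have e3 : ∑ v ∈ T, dS G S v = ∑ v ∈ T, dS G (S \ T) v + ∑ v ∈ T, dS G T v := by
    rw [← sum_add_distrib]
    exact sum_congr rfl (fun v _ => dS_split hT v)
  have e4 := dS_swap (G := G) (S \ T) T
  omega

end deletion2

end Pool.Agent.H649.InducedPath
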