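import Mathlib

namespace Pool.Agent.H649.InducedPath

open Finset

variable {V : Type*} {G : SimpleGraph V}

/-- no 4-cycle as a (not necessarily induced) subgraph -/
def C4Free (G : SimpleGraph V) : Prop :=
  ∀ a b c d : V, a ≠ c → b ≠ d → G.Adj a b → G.Adj b c → G.Adj c d → G.Adj d a → False

/-- the first `k` values of `f` form an induced path in this order -/
def IP (G : SimpleGraph V) (f : ℕ → V) (k : ℕ) : Prop :=
  (∀ i < k, ∀ j < k, f i = f j → i = j) ∧
    ∀ i < k, ∀ j < k, (G.Adj (f i) (f j) ↔ (i + 1 = j ∨ j + 1 = i))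

/-- every neighbour of the last vertex is adjacent to another vertex of the path -/
def Blk (G : SimpleGraph V) (f : ℕ → V) (k : ℕ) : Prop :=
  ∀ w, G.Adj w (f (k - 1)) → ∃ i, i + 1 < k ∧ G.Adj w (f i)

lemma IP.congr {f g : ℕ → V} {k : ℕ} (hf : IP G f k) (h : ∀ i < k, f i = g i) : IP G g k := by
  refine ⟨fun i hi j hj hij => hf.1 i hi j hj ?_, fun i hi j hj => ?_⟩
  · rw [h i hi, h j hj, hij]
  · rw [← h i hi, ← h j hj]; exact hf.2 i hi j hj

lemma IP.rev {f : ℕ → V} {k : ℕ} (hf : IP G f k) : IP G (fun i => f (k - 1 - i)) k := by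
  refine ⟨fun i hi j hj hij => ?_, fun i hi j hj => ?_⟩
  · have := hf.1 (k - 1 - i) (by omega) (k - 1 - j) (by omega) hij
    omega
  · have := hf.2 (k - 1 - i) (by omega) (k - 1 - j) (by omega)
    simp only [this]
    constructor <;> intro h <;> omega

lemma IP.shift {f : ℕ → V} {k : ℕ} (hf : IP G f k) (a : ℕ) (m : ℕ) (hm : m + a ≤ k) :
    IP G (fun i => f (i + a)) m := by
  refine ⟨fun i hi j hj hij => ?_, fun i hi j hj => ?_⟩
  · have := hf.1 (i + a) (by omega) (j + a) (by omega) hij
    omega
  · have := hf.2 (i + a) (by omega) (j + a) (by omega)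
    simp only [this]
    constructor <;> intro h <;> omega

lemma IP.snoc {f : ℕ → V} {k : ℕ} (hf : IP G f k) (hk : 3 ≤ k) {w : V}
    (hw : G.Adj w (f (k - 1))) (hn : ∀ i, i + 1 < k → ¬ G.Adj w (f i)) :
    IP G (fun i => if i < k then f i else w) (k + 1) := by
  have hne : ∀ i < k, f i ≠ w := by
    intro i hi h
    rw [← h] at hw hn
    have h1 := (hf.2 i hi (k - 1) (by omega)).1 hw
    have h2 : ¬ G.Adj (f i) (f (k - 3)) := hn (k - 3) (by omega)
    apply h2
    rw [hf.2 i hi (k - 3) (by omega)]
    omega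
  refine ⟨fun i hi j hj hij => ?_, fun i hi j hj => ?_⟩
  · by_cases h1 : i < k <;> by_cases h2 : j < k
    · simp only [h1, h2, if_true] at hij
      exact hf.1 i h1 j h2 hij
    · simp only [h1, h2, if_true, if_false] at hij
      exact absurd hij (hne i h1)
    · simp only [h1, h2, if_true, if_false] at hij
      exact absurd hij.symm (hne j h2)
    · omega
  · by_cases h1 : i < k <;> by_cases h2 : j < k
    · simp only [h1, h2, if_true]
      exact hf.2 i h1 j h2
    · simp only [h1, h2, if_true, if_false]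
      have hj' : j = k := by omega
      by_cases h3 : i + 1 = k
      · have : i = k - 1 := by omega
        rw [this]
        constructor
        · intro _; omega
        · intro _; exact hw.symm
      · constructor
        · intro h; exact absurd h.symm (hn i (by omega))
        · intro h; omega
    · simp only [h1, h2, if_true, if_false]
      have hj' : i = k := by omega
      by_cases h3 : j + 1 = k
      · have : j = k - 1 := by omega
        rw [this]
        constructor
        · intro _; omega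
        · intro _; exact hw
      · constructor
        · intro h; exact absurd h (hn j (by omega))
        · intro h; omega
    · simp only [h1, h2, if_false]
      constructor
      · intro h; exact absurd h (G.irrefl)
      · intro h; omega

lemma not_blk {f : ℕ → V} {k : ℕ} (h : ¬ Blk G f k) :
    ∃ w, G.Adj w (f (k - 1)) ∧ ∀ i, i + 1 < k → ¬ G.Adj w (f i) := by
  unfold Blk at h
  push Not at h
  exact h

lemma IP.card_le [Fintype V] {f : ℕ → V} {k : ℕ} (hf : IP G f k) : k ≤ Fintype.card V := by
  classical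
  have : ((range k).image f).card = k := by
    rw [card_image_of_injOn, card_range]
    intro i hi j hj hij
    exact hf.1 i (by simpa using hi) j (by simpa using hj) hij
  rw [← this]
  exact card_le_univ _

lemma exists_blk [Fintype V] : ∀ (n : ℕ) (f : ℕ → V) (k : ℕ), Fintype.card V ≤ k + n →
    IP G f k → 3 ≤ k → ∃ (g : ℕ → V) (m : ℕ), k ≤ m ∧ (∀ i < k, g i = f i) ∧ IP G g m ∧
      Blk G g m := by
  intro n
  induction n with
  | zero =>
    intro f k hc hf hk
    by_cases hb : Blk G f k
    · exact ⟨f, k, le_rfl, fun _ _ => rfl, hf, hb⟩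
    · obtain ⟨w, hw, hn⟩ := not_blk hb
      have := (hf.snoc hk hw hn).card_le
      omega
  | succ n ih =>
    intro f k hc hf hk
    by_cases hb : Blk G f k
    · exact ⟨f, k, le_rfl, fun _ _ => rfl, hf, hb⟩
    · obtain ⟨w, hw, hn⟩ := not_blk hb
      obtain ⟨g, m, h1, h2, h3, h4⟩ := ih _ (k + 1) (by omega) (hf.snoc hk hw hn) (by omega)
      refine ⟨g, m, by omega, ?_, h3, h4⟩
      intro i hi
      rw [h2 i (by omega)]
      simp [hi]

/-- the counting lemma at a blocked end -/
lemma count (hC : C4Free G) {f : ℕ → V} {k : ℕ} (hf : IP G f k) (hk : 3 ≤ k) (hb : Blk G f k)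
    (I : Finset V) (hI : ∀ w ∈ I, G.Adj w (f (k - 1)))
    (hind : ∀ w ∈ I, ∀ w' ∈ I, ¬ G.Adj w w')
    (F : Finset ℕ) (hF : ∀ i ∈ F, i + 4 ≤ k)
    (hF' : ∀ i ∈ F, ∀ w, G.Adj w (f (k - 1)) → ¬ G.Adj w (f i)) :
    I.card + 2 + F.card ≤ k ∧ (k ≤ I.card + 2 + F.card → ∀ i, i + 4 ≤ k → i ∉ F →
      ∃ w, G.Adj w (f (k - 1)) ∧ G.Adj w (f i) ∧ ∀ j < k - 1, j ≠ i → ¬ G.Adj w (f j)) := by
  classical
  -- membership relation
  let R : V → ℕ → Prop := fun w i => i + 1 < k ∧ i + 3 ≠ k ∧ (G.Adj w (f i) ∨ (i + 2 = k ∧ w = f i))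
  have hz : ∀ i, i + 1 < k → f i ≠ f (k - 1) := by
    intro i hi h
    have := hf.1 i (by omega) (k - 1) (by omega) h
    omega
  have a32 : G.Adj (f (k - 3)) (f (k - 2)) := by
    rw [hf.2 (k - 3) (by omega) (k - 2) (by omega)]; omega
  have a21 : G.Adj (f (k - 2)) (f (k - 1)) := by
    rw [hf.2 (k - 2) (by omega) (k - 1) (by omega)]; omega
  -- C4-freeness at index k-3
  have h3 : ∀ w, G.Adj w (f (k - 1)) → w ≠ f (k - 2) → ¬ G.Adj w (f (k - 3)) := by
    intro w hw hne h
    exact hC w (f (k - 3)) (f (k - 2)) (f (k - 1)) hne (hz (k - 3) (by omega)) h a32 a21 hw.symm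
  have hR1 : ∀ w ∈ I, ∃ i, R w i := by
    intro w hw
    obtain ⟨i, hi, hadj⟩ := hb w (hI w hw)
    by_cases h : i + 3 = k
    · by_cases hw2 : w = f (k - 2)
      · refine ⟨k - 2, by omega, by omega, Or.inr ⟨by omega, hw2⟩⟩
      · have : i = k - 3 := by omega
        subst this
        exact absurd hadj (h3 w (hI w hw) hw2)
    · exact ⟨i, hi, h, Or.inl hadj⟩
  have hR2 : ∀ w ∈ I, ∀ w' ∈ I, ∀ i, R w i → R w' i → w = w' := by
    intro w hw w' hw' i h h'
    by_contra hne
    rcases h.2.2 with h1 | h1 <;> rcases h'.2.2 with h2 | h2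
    · exact hC w (f i) w' (f (k - 1)) hne (hz i h.1) h1 h2.symm (hI w' hw') (hI w hw).symm
    · rw [← h2.2] at h1
      exact hind w hw w' hw' h1
    · rw [← h1.2] at h2
      exact hind w' hw' w hw h2
    · exact hne (h1.2.trans h2.2.symm)
  choose! φ hφ using hR1
  let T : Finset ℕ := range k \ ({k - 1, k - 3} ∪ F)
  have hTc : T.card + (2 + F.card) = k := by
    have hsub : ({k - 1, k - 3} ∪ F : Finset ℕ) ⊆ range k := by
      intro i hi
      simp only [mem_union, mem_insert, mem_singleton] at hi
      rw [mem_range]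
      rcases hi with (h | h) | h
      · omega
      · omega
      · have := hF i h; omega
    have hc2 : ({k - 1, k - 3} ∪ F : Finset ℕ).card = 2 + F.card := by
      rw [card_union_of_disjoint, card_pair (by omega)]
      rw [disjoint_left]
      intro i hi hiF
      simp only [mem_insert, mem_singleton] at hi
      have := hF i hiF
      omega
    have := card_sdiff_add_card_eq_card hsub
    rw [hc2, card_range] at this
    exact this
  have hRT : ∀ w, G.Adj w (f (k - 1)) → ∀ i, R w i → i ∈ T := by
    intro w hw i hi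
    simp only [T, mem_sdiff, mem_range, mem_union, mem_insert, mem_singleton, not_or]
    obtain ⟨h1, h2, h4⟩ := hi
    refine ⟨by omega, ⟨by omega, by omega⟩, ?_⟩
    intro hiF
    have := hF i hiF
    rcases h4 with h4 | h4
    · exact hF' i hiF w hw h4
    · omega
  have hmap : ∀ w ∈ I, φ w ∈ T := fun w hw => hRT w (hI w hw) _ (hφ w hw)
  have hinj : Set.InjOn φ I := by
    intro w hw w' hw' h
    have h1 := hφ w hw
    have h2 := hφ w' hw'
    rw [← h] at h2
    exact hR2 w hw w' hw' _ h1 h2
  have hcard : I.card ≤ T.card := card_le_card_of_injOn φ hmap hinj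
  refine ⟨by omega, ?_⟩
  intro hge i hi4 hiF
  have himg : I.image φ = T := by
    apply eq_of_subset_of_card_le
    · intro x hx
      obtain ⟨w, hw, rfl⟩ := mem_image.1 hx
      exact hmap w hw
    · rw [card_image_of_injOn hinj]
      omega
  have hiT : i ∈ T := by
    simp only [T, mem_sdiff, mem_range, mem_union, mem_insert, mem_singleton, not_or]
    exact ⟨by omega, ⟨by omega, by omega⟩, hiF⟩
  rw [← himg] at hiT
  obtain ⟨w, hw, hwi⟩ := mem_image.1 hiT
  have hRw := hφ w hw
  rw [hwi] at hRw
  have hadj : G.Adj w (f i) := by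
    rcases hRw.2.2 with h | h
    · exact h
    · omega
  refine ⟨w, hI w hw, hadj, ?_⟩
  intro j hj hji hadj'
  by_cases hj3 : j + 3 = k
  · have : j = k - 3 := by omega
    subst this
    by_cases hw2 : w = f (k - 2)
    · rw [hw2] at hadj
      have := (hf.2 (k - 2) (by omega) i (by omega)).1 hadj
      omega
    · exact h3 w (hI w hw) hw2 hadj'
  · have hRj : R w j := ⟨by omega, hj3, Or.inl hadj'⟩
    have hjT := hRT w (hI w hw) j hRj
    rw [← himg] at hjT
    obtain ⟨w', hw', hwj⟩ := mem_image.1 hjT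
    have hRw' := hφ w' hw'
    rw [hwj] at hRw'
    have := hR2 w hw w' hw' j hRj hRw'
    subst this
    exact hji (hwj.symm.trans hwi)

end Pool.Agent.H649.InducedPath
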