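import Pool.Agent.H649.InducedPath

namespace Pool.Agent.H649.InducedPath

open Finset

variable {V : Type*} {G : SimpleGraph V}

lemma exists_geo (hG : G.Connected) (u v : V) :
    ∃ g : ℕ → V, g 0 = u ∧ g (G.dist u v) = v ∧
      (∀ i j, i ≤ j → j ≤ G.dist u v → G.dist (g i) (g j) = j - i) := by
  obtain ⟨p, hp⟩ := hG.exists_walk_length_eq_dist u v
  refine ⟨p.getVert, by simp, ?_, ?_⟩
  · rw [← hp]; simp
  have hstep : ∀ i, i < G.dist u v → G.dist (p.getVert i) (p.getVert (i + 1)) ≤ 1 := by
    intro i hi
    have := p.adj_getVert_succ (i := i) (by omega)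
    exact (SimpleGraph.dist_eq_one_iff_adj.2 this).le
  have hle : ∀ d i, i + d ≤ G.dist u v → G.dist (p.getVert i) (p.getVert (i + d)) ≤ d := by
    intro d
    induction d with
    | zero => intro i _; simp
    | succ d ih =>
      intro i hi
      have h1 := ih i (by omega)
      have h2 := hstep (i + d) (by omega)
      have h3 := hG.dist_triangle (u := p.getVert i) (v := p.getVert (i + d))
        (w := p.getVert (i + (d + 1)))
      have h4 : i + (d + 1) = i + d + 1 := by ring
      rw [h4] at h3 ⊢
      omega
  intro i j hij hj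
  have h0 : p.getVert 0 = u := by simp
  have hD : p.getVert (G.dist u v) = v := by rw [← hp]; simp
  have h1 := hle i 0 (by omega)
  have h2 := hle (j - i) i (by omega)
  have h3 := hle (G.dist u v - j) j (by omega)
  have e1 : 0 + i = i := by ring
  have e2 : i + (j - i) = j := by omega
  have e3 : j + (G.dist u v - j) = G.dist u v := by omega
  rw [e1, h0] at h1
  rw [e2] at h2
  rw [e3, hD] at h3
  have t1 := hG.dist_triangle (u := u) (v := p.getVert i) (w := v)
  have t2 := hG.dist_triangle (u := p.getVert i) (v := p.getVert j) (w := v)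
  omega

lemma geo_IP {D : ℕ} {g : ℕ → V} (hg : ∀ i j, i ≤ j → j ≤ D → G.dist (g i) (g j) = j - i) :
    IP G g (D + 1) := by
  have hg' : ∀ i j, i ≤ D → j ≤ D → (G.Adj (g i) (g j) ↔ (i + 1 = j ∨ j + 1 = i)) := by
    intro i j hi hj
    rw [← SimpleGraph.dist_eq_one_iff_adj]
    rcases le_total i j with h | h
    · rw [hg i j h hj]; omega
    · rw [SimpleGraph.dist_comm, hg j i h hi]; omega
  refine ⟨?_, fun i hi j hj => hg' i j (by omega) (by omega)⟩
  intro i hi j hj hij
  rcases le_total i j with h | h
  · have := hg i j h (by omega)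
    rw [hij, SimpleGraph.dist_self] at this
    omega
  · have := hg j i h (by omega)
    rw [hij, SimpleGraph.dist_self] at this
    omega

lemma far (hG : G.Connected) {a b : V} (h : 3 ≤ G.dist a b) :
    ∀ w, G.Adj w a → ¬ G.Adj w b := by
  intro w h1 h2
  have t := hG.dist_triangle (u := a) (v := w) (w := b)
  rw [SimpleGraph.dist_eq_one_iff_adj.2 h1.symm, SimpleGraph.dist_eq_one_iff_adj.2 h2] at t
  omega

/-- local independence at least `L` everywhere -/
def LocInd (G : SimpleGraph V) (L : ℕ) : Prop :=
  ∀ v, ∃ I : Finset V, L ≤ I.card ∧ (∀ w ∈ I, G.Adj w v) ∧ ∀ w ∈ I, ∀ w' ∈ I, ¬ G.Adj w w'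

lemma count' (hC : C4Free G) {L : ℕ} (hL : LocInd G L) {f : ℕ → V} {k : ℕ} (hf : IP G f k)
    (hk : 3 ≤ k) (hb : Blk G f k) (F : Finset ℕ) (hF : ∀ i ∈ F, i + 4 ≤ k)
    (hF' : ∀ i ∈ F, ∀ w, G.Adj w (f (k - 1)) → ¬ G.Adj w (f i)) :
    L + 2 + F.card ≤ k ∧ (k ≤ L + 2 + F.card → ∀ i, i + 4 ≤ k → i ∉ F →
      ∃ w, G.Adj w (f (k - 1)) ∧ G.Adj w (f i) ∧ ∀ j < k - 1, j ≠ i → ¬ G.Adj w (f j)) := by
  obtain ⟨I, h1, h2, h3⟩ := hL (f (k - 1))
  obtain ⟨c1, c2⟩ := count hC hf hk hb I h2 h3 F hF hF'
  exact ⟨by omega, fun h => c2 (by omega)⟩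

lemma main_big [Fintype V] (hG : G.Connected) (hC : C4Free G) {L : ℕ} (hL : LocInd G L)
    (hL2 : 2 ≤ L) (u v : V) (hD : 3 ≤ G.dist u v) :
    ∃ (f : ℕ → V) (k : ℕ), G.dist u v + L ≤ k ∧ IP G f k := by
  classical
  by_contra hcon
  push Not at hcon
  -- `hcon f k : G.dist u v + L ≤ k → ¬ IP G f k`
  obtain ⟨g, hg0, hgD, hg⟩ := exists_geo hG u v
  set D := G.dist u v with hDdef
  obtain ⟨f, k, hk1, hfg, hf, hb⟩ := exists_blk (Fintype.card V) g (D + 1) (by omega)
    (geo_IP hg) (by omega)
  have hd : ∀ i j, i ≤ j → j ≤ D → G.dist (f i) (f j) = j - i := by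
    intro i j h1 h2
    rw [hfg i (by omega), hfg j (by omega)]
    exact hg i j h1 h2
  have hkL : k < D + L := by
    by_contra h
    exact hcon f k (by omega) hf
  -- the start is not blocked
  have hnb : ¬ Blk G (fun i => f (k - 1 - i)) k := by
    intro hbr
    have hc := (count' hC hL hf.rev (by omega) hbr (Icc (k - 1 - D) (k - 4))
      (fun i hi => by rw [mem_Icc] at hi; omega)
      (fun i hi => by
        rw [mem_Icc] at hi
        have e : k - 1 - (k - 1) = 0 := by omega
        simp only [e]
        apply far hG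
        rw [hd 0 (k - 1 - i) (by omega) (by omega)]
        omega)).1
    rw [Nat.card_Icc] at hc
    omega
  obtain ⟨x, hx, hxn⟩ := not_blk hnb
  have e0 : k - 1 - (k - 1) = 0 := by omega
  simp only [e0] at hx
  have hr : IP G (fun i => if i < k then f (k - 1 - i) else x) (k + 1) := by
    have := hf.rev.snoc (by omega) (w := x) (by simpa only [e0] using hx) hxn
    exact this
  have hkL2 : k + 1 < D + L := by
    by_contra h
    exact hcon _ (k + 1) (by omega) hr
  have hxn' : ∀ j, 1 ≤ j → j < k → ¬ G.Adj x (f j) := by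
    intro j hj1 hj2
    have := hxn (k - 1 - j) (by omega)
    have e : k - 1 - (k - 1 - j) = j := by omega
    simpa only [e] using this
  -- the near window at the blocked end
  have c0 := count' hC hL hf (by omega) hb ∅ (by simp) (by simp)
  rw [card_empty] at c0
  have hD4 : 4 ≤ D := by
    have := c0.1
    omega
  set F : Finset ℕ := (range (D + 1)).filter (fun i => 3 ≤ G.dist (f (k - 1)) (f i)) with hFdef
  set N : Finset ℕ := (range (D + 1)).filter (fun i => ¬ 3 ≤ G.dist (f (k - 1)) (f i)) with hNdef
  have hFN : F.card + N.card = D + 1 := by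
    rw [hFdef, hNdef, card_filter_add_card_filter_not, card_range]
  have hNm : ∀ i ∈ N, i < D + 1 ∧ ¬ 3 ≤ G.dist (f (k - 1)) (f i) := by
    intro i hi
    rw [hNdef, mem_filter, mem_range] at hi
    exact hi
  have hN5 : N.card ≤ 5 := by
    rcases N.eq_empty_or_nonempty with h | h
    · rw [h]; simp
    · have hsub : N ⊆ Icc (N.min' h) (N.min' h + 4) := by
        intro i hi
        rw [mem_Icc]
        have h1 := N.min'_le i hi
        refine ⟨h1, ?_⟩
        have hm := hNm _ (N.min'_mem h)
        replace hi := hNm _ hi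
        have t := hG.dist_triangle (u := f (N.min' h)) (v := f (k - 1)) (w := f i)
        rw [hd _ _ h1 (by omega)] at t
        have t2 : G.dist (f (N.min' h)) (f (k - 1)) = G.dist (f (k - 1)) (f (N.min' h)) :=
          SimpleGraph.dist_comm
        omega
      have := card_le_card hsub
      rw [Nat.card_Icc] at this
      omega
  have hstep : ∀ i, i + 1 < k → G.dist (f (i + 1)) (f i) = 1 := by
    intro i hi
    rw [SimpleGraph.dist_eq_one_iff_adj, hf.2 _ (by omega) _ (by omega)]
    omega
  have hF4 : ∀ i ∈ F, i + 4 ≤ k := by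
    intro i hi
    rw [hFdef, mem_filter, mem_range] at hi
    by_contra hlt
    have hd2 : G.dist (f (k - 1)) (f i) ≤ 2 := by
      have h3 : i = k - 1 ∨ i = k - 2 ∨ i = k - 3 := by omega
      have s1 := hstep (k - 2) (by omega)
      have s2 := hstep (k - 3) (by omega)
      have e1 : k - 2 + 1 = k - 1 := by omega
      have e2 : k - 3 + 1 = k - 2 := by omega
      rw [e1] at s1
      rw [e2] at s2
      rcases h3 with h | h | h
      · rw [h, SimpleGraph.dist_self]; omega
      · rw [h]; omega
      · rw [h]
        have t := hG.dist_triangle (u := f (k - 1)) (v := f (k - 2)) (w := f (k - 3))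
        omega
    omega
  have c1 := (count' hC hL hf (by omega) hb F hF4 (fun i hi => by
    rw [hFdef, mem_filter] at hi
    exact far hG hi.2)).1
  have hk : k + 2 = D + L := by omega
  -- the extended path is blocked at `x`
  have hrb : Blk G (fun i => if i < k then f (k - 1 - i) else x) (k + 1) := by
    by_contra h
    obtain ⟨w, hw, hn⟩ := not_blk h
    exact hcon _ (k + 2) (by omega) (hr.snoc (by omega) hw hn)
  have hdx : ∀ i, G.dist (f 0) (f i) ≤ G.dist x (f i) + 1 := by
    intro i
    have t := hG.dist_triangle (u := f 0) (v := x) (w := f i)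
    rw [SimpleGraph.dist_eq_one_iff_adj.2 hx.symm] at t
    omega
  -- hence `k > D + 1`
  have hkD : D + 2 ≤ k := by
    by_contra h
    have hkD1 : k = D + 1 := by omega
    have c2 := (count' hC hL hf (by omega) hb (range (D - 2)) (fun i hi => by
      rw [mem_range] at hi; omega) (fun i hi => by
      rw [mem_range] at hi
      apply far hG
      have e : k - 1 = D := by omega
      rw [e, SimpleGraph.dist_comm, hd i D (by omega) le_rfl]
      omega)).1
    rw [card_range] at c2
    omega
  have hd0D1 : D ≤ G.dist (f 0) (f (D + 1)) + 1 := by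
    have t := hG.dist_triangle (u := f 0) (v := f (D + 1)) (w := f D)
    rw [hstep D (by omega), hd 0 D (by omega) le_rfl] at t
    omega
  -- hence `D = 4`
  have hD4' : D = 4 := by
    by_contra hne
    have c3 := (count' hC hL hr (by omega) hrb (Icc (k - 2 - D) (k - 5)) (fun i hi => by
      rw [mem_Icc] at hi; omega) (fun i hi => by
      rw [mem_Icc] at hi
      have e1 : ¬ (k + 1 - 1 < k) := by omega
      have e2 : i < k := by omega
      simp only [e1, e2, if_true, if_false]
      apply far hG
      have h1 := hdx (k - 1 - i)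
      by_cases h2 : k - 1 - i = D + 1
      · rw [h2] at h1 ⊢
        omega
      · rw [hd 0 (k - 1 - i) (by omega) (by omega)] at h1
        omega)).1
    rw [Nat.card_Icc] at c3
    omega
  clear_value D
  subst hD4'
  -- the vertex `w0`
  obtain ⟨w0, hw1, hw2, hw3⟩ := c0.2 (by omega) 0 (by omega) (by simp)
  have hd05 : 3 ≤ G.dist (f 0) (f 5) := by
    have h : 4 ≤ G.dist (f 0) (f 5) + 1 := hd0D1
    omega
  have hk7 : 7 ≤ k := by
    by_contra h
    have hk6 : k = 6 := by omega
    subst hk6
    exact far hG hd05 w0 hw2 hw1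
  -- the vertex `u3`
  have c4 := (count' hC hL hr (by omega) hrb {k - 5} (fun i hi => by
      rw [mem_singleton] at hi; omega) (fun i hi => by
      rw [mem_singleton] at hi
      subst hi
      have e1 : ¬ (k + 1 - 1 < k) := by omega
      have e2 : k - 5 < k := by omega
      have e3 : k - 1 - (k - 5) = 4 := by omega
      simp only [e1, e2, e3, if_true, if_false]
      apply far hG
      have h1 := hdx 4
      rw [hd 0 4 (by omega) (by omega)] at h1
      omega)).2
  rw [card_singleton] at c4
  obtain ⟨y, hy1, hy2, hy3⟩ := c4 (by omega) (k - 3) (by omega) (by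
    rw [mem_singleton]; omega)
  have e1 : ¬ (k + 1 - 1 < k) := by omega
  have e2 : k - 3 < k := by omega
  have e3 : k - 1 - (k - 3) = 2 := by omega
  simp only [e1, if_false] at hy1
  simp only [e2, e3, if_true] at hy2
  have hy3' : ∀ i, i < k → i ≠ 2 → ¬ G.Adj y (f i) := by
    intro i hi hi2
    have := hy3 (k - 1 - i) (by omega) (by omega)
    have e4 : k - 1 - i < k := by omega
    have e5 : k - 1 - (k - 1 - i) = i := by omega
    simpa only [e4, e5, if_true] using this
  have hyw : ¬ G.Adj y w0 := by
    intro h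
    refine hC y x (f 0) w0 ?_ ?_ hy1 hx hw2.symm h.symm
    · intro h'
      rw [h'] at hy2
      have := (hf.2 0 (by omega) 2 (by omega)).1 hy2
      omega
    · intro h'
      rw [← h'] at hw1
      exact hxn' (k - 1) (by omega) (by omega) hw1
  -- the new path
  have q1 : IP G (fun i => f (i + 2)) (k - 2) := hf.shift 2 (k - 2) (by omega)
  have q2 := q1.snoc (by omega) (w := w0)
    (by
      have e : k - 2 - 1 + 2 = k - 1 := by omega
      simpa only [e] using hw1)
    (by
      intro i hi
      exact hw3 (i + 2) (by omega) (by omega))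
  have q3 := q2.snoc (by omega) (w := f 0)
    (by
      have e : ¬ (k - 2 + 1 - 1 < k - 2) := by omega
      simp only [e, if_false]
      exact hw2.symm)
    (by
      intro i hi
      have e : i < k - 2 := by omega
      simp only [e, if_true]
      rw [hf.2 0 (by omega) (i + 2) (by omega)]
      omega)
  have q4 := q3.rev.snoc (by omega) (w := y)
    (by
      have e : k - 2 + 1 + 1 - 1 - (k - 2 + 1 + 1 - 1) = 0 := by omega
      have e' : 0 < k - 2 + 1 := by omega
      have e'' : 0 < k - 2 := by omega
      simp only [e, e', e'', if_true]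
      exact hy2)
    (by
      intro i hi
      by_cases h1 : k - 2 + 1 + 1 - 1 - i < k - 2 + 1
      · simp only [h1, if_true]
        by_cases h2 : k - 2 + 1 + 1 - 1 - i < k - 2
        · simp only [h2, if_true]
          exact hy3' _ (by omega) (by omega)
        · simp only [h2, if_false]
          exact hyw
      · simp only [h1, if_false]
        exact hy3' 0 (by omega) (by omega))
  have q5 := q4.rev
  have q6 : IP G (fun j => if j = 0 then y else if j < k - 1 then f (j + 1) else
      if j = k - 1 then w0 else f 0) (k + 1) := by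
    have ek : k - 2 + 1 + 1 + 1 = k + 1 := by omega
    rw [ek] at q5
    apply q5.congr
    intro j hj
    by_cases h0 : j = 0
    · subst h0
      have e : ¬ (k + 1 - 1 - 0 < k - 2 + 1 + 1) := by omega
      simp only [e, if_false, if_true]
    · have e : k + 1 - 1 - j < k - 2 + 1 + 1 := by omega
      have e5 : k - 2 + 1 + 1 - 1 - (k + 1 - 1 - j) = j - 1 := by omega
      simp only [e, e5, h0, if_true, if_false]
      by_cases h1 : j < k - 1
      · have e6 : j - 1 < k - 2 + 1 := by omega
        have e7 : j - 1 < k - 2 := by omega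
        have e8 : j - 1 + 2 = j + 1 := by omega
        simp only [e6, e7, e8, h1, if_true]
      · by_cases h2 : j = k - 1
        · have e6 : j - 1 < k - 2 + 1 := by omega
          have e7 : ¬ (j - 1 < k - 2) := by omega
          simp only [e6, e7, h1, if_true, if_false]
          rw [if_pos h2]
        · have e6 : ¬ (j - 1 < k - 2 + 1) := by omega
          simp only [e6, h1, if_false]
          rw [if_neg h2]
  have q6b : Blk G (fun j => if j = 0 then y else if j < k - 1 then f (j + 1) else
      if j = k - 1 then w0 else f 0) (k + 1) := by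
    by_contra h
    obtain ⟨w, hw, hn⟩ := not_blk h
    exact hcon _ (k + 2) (by omega) (q6.snoc (by omega) hw hn)
  have c5 := (count' hC hL q6 (by omega) q6b {2, 3, 4} (fun i hi => by
      simp only [mem_insert, mem_singleton] at hi; omega) (fun i hi => by
      simp only [mem_insert, mem_singleton] at hi
      have a1 : ¬ (k + 1 - 1 = 0) := by omega
      have a2 : ¬ (k + 1 - 1 < k - 1) := by omega
      have a3 : ¬ (k + 1 - 1 = k - 1) := by omega
      have a4 : ¬ (i = 0) := by omega
      have a5 : i < k - 1 := by omega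
      simp only [a1, a2, a3, a4, a5, if_true, if_false]
      apply far hG
      rcases hi with h | h | h
      · subst h; rw [hd 0 3 (by omega) (by omega)]
      · subst h; rw [hd 0 4 (by omega) (by omega)]; omega
      · subst h; exact hd05)).1
  have : ({2, 3, 4} : Finset ℕ).card = 3 := by decide
  omega

lemma main_small [Fintype V] (hG : G.Connected) (hC : C4Free G) {L : ℕ} (hL : LocInd G L)
    (hL2 : 2 ≤ L) (u v : V) (hD : G.dist u v ≤ 2) :
    ∃ (f : ℕ → V) (k : ℕ), G.dist u v + L ≤ k ∧ IP G f k := by
  classical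
  obtain ⟨I, h1, h2, h3⟩ := hL u
  obtain ⟨a, ha, b, hb, hab⟩ := Finset.one_lt_card.1 (show 1 < I.card by omega)
  have hIP : IP G (fun i => if i = 0 then a else if i = 1 then u else b) 3 := by
    have e1 := h2 a ha
    have e2 := h2 b hb
    have e3 := h3 a ha b hb
    have e4 := h3 b hb a ha
    have n1 : a ≠ u := e1.ne
    have n2 : b ≠ u := e2.ne
    refine ⟨fun i hi j hj hij => ?_, fun i hi j hj => ?_⟩
    · interval_cases i <;> interval_cases j <;>
        simp_all [Ne.symm n1, Ne.symm n2, Ne.symm hab]
    · interval_cases i <;> interval_cases j <;> simp_all [G.adj_comm]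
  obtain ⟨f, k, hk1, -, hf, hbk⟩ := exists_blk (Fintype.card V) _ 3 (by omega) hIP (by omega)
  have := (count' hC hL hf (by omega) hbk ∅ (by simp) (by simp)).1
  rw [card_empty] at this
  exact ⟨f, k, by omega, hf⟩

/-- main theorem in terms of `IP` -/
theorem main [Fintype V] (hG : G.Connected) (hC : C4Free G) {L : ℕ} (hL : LocInd G L)
    (u v : V) : ∃ (f : ℕ → V) (k : ℕ), G.dist u v + L ≤ k ∧ IP G f k := by
  by_cases hL2 : 2 ≤ L
  · by_cases hD : G.dist u v ≤ 2
    · exact main_small hG hC hL hL2 u v hD
    · exact main_big hG hC hL hL2 u v (by omega)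
  · obtain ⟨g, -, -, hg⟩ := exists_geo hG u v
    exact ⟨g, G.dist u v + 1, by omega, geo_IP hg⟩

end Pool.Agent.H649.InducedPath
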